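import Mathlib

/-!
The Lie algebra of a nondegenerate symmetric or alternating form over a field with `r` elements, `r` odd, in dimension
at least five is spanned by its elements of square zero.
-/

set_option autoImplicit false

open Matrix

namespace Pool.Agent.Helper85.KN

section
variable {F : Type*} [Field F] {n : Type*} [Fintype n] [DecidableEq n] (J : Matrix n n F)

/-- the span of the elements of square zero of the Lie algebra of `J` -/
def Msq : Submodule F (Matrix n n F) := Submodule.span F {y | yᵀ * J + J * y = 0 ∧ y * y = 0}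

/-- the form -/
def B (v w : n → F) : F := v ⬝ᵥ J *ᵥ w

omit [DecidableEq n] in
lemma B_add_left (v v' w : n → F) : B J (v + v') w = B J v w + B J v' w := add_dotProduct _ _ _

omit [DecidableEq n] in
lemma B_add_right (v w w' : n → F) : B J v (w + w') = B J v w + B J v w' := by
  unfold B
  rw [mulVec_add, dotProduct_add]

omit [DecidableEq n] in
lemma B_smul_left (c : F) (v w : n → F) : B J (c • v) w = c * B J v w := by
  unfold B
  rw [smul_dotProduct, smul_eq_mul]

omit [DecidableEq n] in
lemma B_smul_right (c : F) (v w : n → F) : B J v (c • w) = c * B J v w := by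
  unfold B
  rw [mulVec_smul, dotProduct_smul, smul_eq_mul]

omit [DecidableEq n] in
lemma B_symm (hs : Jᵀ = J) (v w : n → F) : B J v w = B J w v := by
  unfold B
  rw [dotProduct_mulVec, ← mulVec_transpose, hs, dotProduct_comm]

omit [DecidableEq n] in
lemma B_alt (hs : Jᵀ = -J) (h2 : (2 : F) ≠ 0) (v : n → F) : B J v v = 0 := by
  have h : B J v v = - B J v v := by
    conv_lhs => unfold B
    rw [dotProduct_mulVec, ← mulVec_transpose, hs, neg_mulVec, neg_dotProduct, dotProduct_comm]
    rfl
  have h3 : 2 * B J v v = 0 := by linear_combination h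
  exact (mul_eq_zero.1 h3).resolve_left h2

/-- the skew product -/
def T (v w : n → F) : Matrix n n F := vecMulVec v w - vecMulVec w v

omit [Fintype n] [DecidableEq n] in
lemma T_self (v : n → F) : T v v = 0 := sub_self _

omit [Fintype n] [DecidableEq n] in
lemma T_swap (v w : n → F) : T v w = - T w v := by
  unfold T
  rw [neg_sub]

omit [Fintype n] [DecidableEq n] in
lemma T_add_right (v w w' : n → F) : T v (w + w') = T v w + T v w' := by
  unfold T
  rw [vecMulVec_add, add_vecMulVec]
  abel

omit [Fintype n] [DecidableEq n] in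
lemma T_smul_right (c : F) (v w : n → F) : T v (c • w) = c • T v w := by
  unfold T
  rw [vecMulVec_smul, smul_vecMulVec, smul_sub]

omit [Fintype n] [DecidableEq n] in
lemma T_add_left (v v' w : n → F) : T (v + v') w = T v w + T v' w := by
  rw [T_swap, T_add_right, T_swap w v, T_swap w v']
  abel

omit [Fintype n] [DecidableEq n] in
lemma T_smul_left (c : F) (v w : n → F) : T (c • v) w = c • T v w := by
  rw [T_swap, T_smul_right, T_swap w v, smul_neg, neg_neg]

omit [DecidableEq n] in
lemma mulJ (a b c d : n → F) : vecMulVec a b * J * vecMulVec c d = B J b c • vecMulVec a d := by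
  unfold B
  rw [vecMulVec_mul, vecMulVec_mul_vecMulVec, dotProduct_mulVec, vecMulVec_smul]

omit [DecidableEq n] in
lemma T_iso (hs : Jᵀ = J) {v w : n → F} (h1 : B J v v = 0) (h2 : B J v w = 0) (h3 : B J w w = 0) :
    T v w * J ∈ Msq J := by
  apply Submodule.subset_span
  have ht : (T v w)ᵀ = - T v w := by
    unfold T
    rw [transpose_sub, transpose_vecMulVec, transpose_vecMulVec, neg_sub]
  have h4 : B J w v = 0 := by rw [B_symm J hs, h2]
  refine ⟨?_, ?_⟩
  · rw [transpose_mul, ht, hs, Matrix.mul_neg, Matrix.neg_mul, Matrix.mul_assoc]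
    exact neg_add_cancel _
  · have h5 : T v w * J * T v w = 0 := by
      unfold T
      simp only [Matrix.mul_sub, Matrix.sub_mul, mulJ, h1, h2, h3, h4, zero_smul, sub_zero]
    rw [← Matrix.mul_assoc, h5, Matrix.zero_mul]

lemma nd (hJ : IsUnit J.det) {v : n → F} (hv : v ≠ 0) : ∃ y, B J v y ≠ 0 := by
  by_contra h
  push Not at h
  exact hv ((nondegenerate_of_det_ne_zero hJ.ne_zero).eq_zero_of_ortho h)

omit [DecidableEq n] in
lemma orth4 (hn : 4 < Fintype.card n) (f : Fin 4 → n → F) : ∃ z : n → F, z ≠ 0 ∧ ∀ i, B J z (f i) = 0 := by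
  let L : (n → F) →ₗ[F] (Fin 4 → F) := LinearMap.pi fun i =>
    { toFun := fun z => B J z (f i)
      map_add' := fun a b => B_add_left J a b _
      map_smul' := fun c a => B_smul_left J c a _ }
  have h : LinearMap.ker L ≠ ⊥ := by
    apply LinearMap.ker_ne_bot_of_finrank_lt
    rw [Module.finrank_fin_fun, Module.finrank_fintype_fun_eq_card]
    exact hn
  obtain ⟨z, hz, hz0⟩ := Submodule.exists_mem_ne_zero_of_ne_bot h
  refine ⟨z, hz0, fun i => ?_⟩
  exact congrFun (LinearMap.mem_ker.1 hz) i

/-- a hyperbolic partner -/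
lemma partner (hs : Jᵀ = J) (hJ : IsUnit J.det) (h2 : (2 : F) ≠ 0) {v : n → F} (hv : v ≠ 0) (h0 : B J v v = 0) :
    ∃ u, B J u u = 0 ∧ B J v u = 1 := by
  obtain ⟨y, hy⟩ := nd J hJ hv
  set y' := (B J v y)⁻¹ • y with hy'
  have h1 : B J v y' = 1 := by rw [hy', B_smul_right, inv_mul_cancel₀ hy]
  have h1' : B J y' v = 1 := by rw [B_symm J hs, h1]
  clear_value y'
  refine ⟨y' + (-(B J y' y' / 2)) • v, ?_, ?_⟩
  · rw [B_add_left, B_add_right, B_add_right, B_smul_left, B_smul_left, B_smul_right, B_smul_right, h0, h1, h1']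
    field_simp
    ring
  · rw [B_add_right, B_smul_right, h0, h1, mul_zero, add_zero]

variable [Fintype F]

omit [DecidableEq n] in
/-- isotropic vectors -/
lemma iso (hs : Jᵀ = J) (hF : Fintype.card F % 2 = 1) (hn : 4 < Fintype.card n) (p q : n → F) :
    ∃ e : n → F, e ≠ 0 ∧ B J e e = 0 ∧ B J e p = 0 ∧ B J e q = 0 := by
  obtain ⟨a, ha, ha'⟩ := orth4 J hn ![p, q, 0, 0]
  have ha0 := ha' 0
  have ha1 := ha' 1
  simp only [cons_val_zero, cons_val_one] at ha0 ha1
  by_cases h1 : B J a a = 0
  · exact ⟨a, ha, h1, ha0, ha1⟩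
  obtain ⟨b, hb, hb'⟩ := orth4 J hn ![p, q, a, 0]
  have hb0 := hb' 0
  have hb1 := hb' 1
  have hb2 := hb' 2
  simp only [cons_val_zero, cons_val_one, cons_val] at hb0 hb1 hb2
  by_cases h2 : B J b b = 0
  · exact ⟨b, hb, h2, hb0, hb1⟩
  obtain ⟨c, hc, hc'⟩ := orth4 J hn ![p, q, a, b]
  have hc0 := hc' 0
  have hc1 := hc' 1
  have hc2 := hc' 2
  have hc3 := hc' 3
  simp only [cons_val_zero, cons_val_one, cons_val] at hc0 hc1 hc2 hc3
  by_cases h3 : B J c c = 0
  · exact ⟨c, hc, h3, hc0, hc1⟩
  obtain ⟨x, y, hxy⟩ := FiniteField.exists_root_sum_quadratic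
    (f := Polynomial.C (B J a a) * Polynomial.X ^ 2 + Polynomial.C 0 * Polynomial.X + Polynomial.C 0)
    (g := Polynomial.C (B J b b) * Polynomial.X ^ 2 + Polynomial.C 0 * Polynomial.X + Polynomial.C (B J c c))
    (Polynomial.degree_quadratic h1) (Polynomial.degree_quadratic h2) hF
  simp only [Polynomial.eval_add, Polynomial.eval_mul, Polynomial.eval_C, Polynomial.eval_pow, Polynomial.eval_X] at hxy
  have hab : B J a b = 0 := by rw [B_symm J hs, hb2]
  have hac : B J a c = 0 := by rw [B_symm J hs, hc2]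
  have hbc : B J b c = 0 := by rw [B_symm J hs, hc3]
  refine ⟨x • a + y • b + c, ?_, ?_, ?_, ?_⟩
  · intro he
    have h4 : B J (x • a + y • b + c) c = B J c c := by
      rw [B_add_left, B_add_left, B_smul_left, B_smul_left, hac, hbc]
      ring
    rw [he] at h4
    apply h3
    rw [← h4]
    simp [B]
  · simp only [B_add_left, B_add_right, B_smul_left, B_smul_right, hab, hb2, hac, hc2, hbc, hc3]
    linear_combination hxy
  · simp only [B_add_left, B_smul_left, ha0, hb0, hc0]
    ring
  · simp only [B_add_left, B_smul_left, ha1, hb1, hc1]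
    ring

/-- a vector orthogonal to an isotropic vector -/
lemma perp (hs : Jᵀ = J) (hJ : IsUnit J.det) (h2 : (2 : F) ≠ 0) (hF : Fintype.card F % 2 = 1)
    (hn : 4 < Fintype.card n) {v w : n → F} (hv : v ≠ 0) (h0 : B J v v = 0) (hw : B J v w = 0) :
    T v w * J ∈ Msq J := by
  obtain ⟨u, hu0, hu⟩ := partner J hs hJ h2 hv h0
  have hu' : B J u v = 1 := by rw [B_symm J hs, hu]
  obtain ⟨e, he0, hee, hev, heu⟩ := iso J hs hF hn v u
  have hve : B J v e = 0 := by rw [B_symm J hs, hev]
  -- vectors orthogonal to the hyperbolic plane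
  have key1 : ∀ x : n → F, B J v x = 0 → B J u x = 0 → B J e x ≠ 0 → T v x * J ∈ Msq J := by
    intro x hvx hux hex
    have hxe : B J x e = B J e x := B_symm J hs _ _
    set t := -(B J x x / (2 * B J e x)) with ht
    have h3 : T v (x + t • e) * J ∈ Msq J := by
      apply T_iso J hs h0
      · rw [B_add_right, B_smul_right, hvx, hve]
        ring
      · rw [B_add_left, B_add_right, B_add_right, B_smul_left, B_smul_left, B_smul_right, B_smul_right, hee, hxe, ht]
        field_simp
        ring
    have h4 : T v e * J ∈ Msq J := T_iso J hs h0 hve hee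
    have h5 : T v x * J = T v (x + t • e) * J - t • (T v e * J) := by
      rw [T_add_right, T_smul_right, Matrix.add_mul, Matrix.smul_mul]
      abel
    rw [h5]
    exact (Msq J).sub_mem h3 ((Msq J).smul_mem _ h4)
  obtain ⟨y₀, hy₀⟩ := nd J hJ he0
  set y := y₀ + (-(B J v y₀)) • u + (-(B J u y₀)) • v with hy
  have hvy : B J v y = 0 := by
    rw [hy, B_add_right, B_add_right, B_smul_right, B_smul_right, hu, h0]
    ring
  have huy : B J u y = 0 := by
    rw [hy, B_add_right, B_add_right, B_smul_right, B_smul_right, hu', hu0]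
    ring
  have hey : B J e y ≠ 0 := by
    rw [hy, B_add_right, B_add_right, B_smul_right, B_smul_right, hev, heu]
    simpa using hy₀
  have key2 : ∀ x : n → F, B J v x = 0 → B J u x = 0 → T v x * J ∈ Msq J := by
    intro x hvx hux
    by_cases hex : B J e x = 0
    · have h3 : T v (x + y) * J ∈ Msq J := by
        apply key1
        · rw [B_add_right, hvx, hvy, add_zero]
        · rw [B_add_right, hux, huy, add_zero]
        · rw [B_add_right, hex, zero_add]
          exact hey
      have h4 := key1 y hvy huy hey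
      have h5 : T v x * J = T v (x + y) * J - T v y * J := by
        rw [T_add_right, Matrix.add_mul]
        abel
      rw [h5]
      exact (Msq J).sub_mem h3 h4
    · exact key1 x hvx hux hex
  have h6 := key2 (w + (-(B J u w)) • v) (by rw [B_add_right, B_smul_right, hw, h0]; ring)
    (by rw [B_add_right, B_smul_right, hu']; ring)
  rw [T_add_right, T_smul_right, T_self, smul_zero, add_zero] at h6
  exact h6

/-- everything -/
lemma T_mem (hs : Jᵀ = J) (hJ : IsUnit J.det) (h2 : (2 : F) ≠ 0) (hF : Fintype.card F % 2 = 1)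
    (hn : 4 < Fintype.card n) (a b : n → F) : T a b * J ∈ Msq J := by
  obtain ⟨v, hv0, hvv, -, -⟩ := iso J hs hF hn 0 0
  obtain ⟨u, huu, hvu⟩ := partner J hs hJ h2 hv0 hvv
  have huv : B J u v = 1 := by rw [B_symm J hs, hvu]
  have hu0 : u ≠ 0 := by
    intro h
    rw [h] at hvu
    simp [B] at hvu
  have hper := fun {v w : n → F} => perp J hs hJ h2 hF hn (v := v) (w := w)
  have key : ∀ z z' : n → F, B J v z = 0 → B J u z = 0 → B J v z' = 0 → B J u z' = 0 →
      T z z' * J - B J z z' • (T v u * J) ∈ Msq J := by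
    intro z z' hvz huz hvz' huz'
    have hzv : B J z v = 0 := by rw [B_symm J hs, hvz]
    have hzu : B J z u = 0 := by rw [B_symm J hs, huz]
    have h3 : T (v + z + (-(B J z z / 2)) • u) (z' + (-(B J z z')) • u) * J ∈ Msq J := by
      apply hper
      · intro h
        have h4 : B J (v + z + (-(B J z z / 2)) • u) u = 1 := by
          rw [B_add_left, B_add_left, B_smul_left, hvu, hzu, huu]
          ring
        rw [h] at h4
        simp [B] at h4
      · simp only [B_add_left, B_add_right, B_smul_left, B_smul_right, hvv, huu, hvu, huv, hvz, huz, hzv, hzu]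
        field_simp
        ring
      · simp only [B_add_left, B_add_right, B_smul_left, B_smul_right, huu, hvu, huz', hvz', hzu]
        ring
    have h4 : T v z' * J ∈ Msq J := hper hv0 hvv hvz'
    have h5 : T u z * J ∈ Msq J := hper hu0 huu huz
    have h6 : T u z' * J ∈ Msq J := hper hu0 huu huz'
    have h7 : T z z' * J - B J z z' • (T v u * J) =
        T (v + z + (-(B J z z / 2)) • u) (z' + (-(B J z z')) • u) * J - T v z' * J - (B J z z') • (T u z * J) +
          (B J z z / 2) • (T u z' * J) := by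
      simp only [T_add_left, T_add_right, T_smul_left, T_smul_right, T_self, T_swap z u, Matrix.add_mul, Matrix.smul_mul,
        Matrix.neg_mul, smul_zero, Matrix.zero_mul]
      module
    rw [h7]
    exact (Msq J).add_mem ((Msq J).sub_mem ((Msq J).sub_mem h3 h4) ((Msq J).smul_mem _ h5)) ((Msq J).smul_mem _ h6)
  -- a vector of nonzero norm
  have hvuM : T v u * J ∈ Msq J := by
    obtain ⟨e, he0, hee, hev, heu⟩ := iso J hs hF hn v u
    have hve : B J v e = 0 := by rw [B_symm J hs, hev]
    have hue : B J u e = 0 := by rw [B_symm J hs, heu]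
    obtain ⟨y₀, hy₀⟩ := nd J hJ he0
    set y := y₀ + (-(B J v y₀)) • u + (-(B J u y₀)) • v with hy
    have hvy : B J v y = 0 := by
      rw [hy, B_add_right, B_add_right, B_smul_right, B_smul_right, hvu, hvv]
      ring
    have huy : B J u y = 0 := by
      rw [hy, B_add_right, B_add_right, B_smul_right, B_smul_right, huv, huu]
      ring
    have hey : B J e y ≠ 0 := by
      rw [hy, B_add_right, B_add_right, B_smul_right, B_smul_right, hev, heu]
      simpa using hy₀
    clear_value y
    have hz : ∃ z, B J v z = 0 ∧ B J u z = 0 ∧ B J z z ≠ 0 := by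
      by_cases h3 : B J y y = 0
      · refine ⟨e + y, by rw [B_add_right, hve, hvy, add_zero], by rw [B_add_right, hue, huy, add_zero], ?_⟩
        have h4 : B J (e + y) (e + y) = 2 * B J e y := by
          rw [B_add_left, B_add_right, B_add_right, hee, h3, B_symm J hs y e]
          ring
        rw [h4]
        exact mul_ne_zero h2 hey
      · exact ⟨y, hvy, huy, h3⟩
    obtain ⟨z, hvz, huz, hzz⟩ := hz
    have h5 := key z z hvz huz hvz huz
    rw [T_self, Matrix.zero_mul, zero_sub] at h5
    have h6 := (Msq J).smul_mem (-(B J z z)⁻¹) h5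
    rw [smul_neg, neg_smul, neg_neg, smul_smul, inv_mul_cancel₀ hzz, one_smul] at h6
    exact h6
  have key' : ∀ z z' : n → F, B J v z = 0 → B J u z = 0 → B J v z' = 0 → B J u z' = 0 → T z z' * J ∈ Msq J := by
    intro z z' h3 h4 h5 h6
    have h7 := (Msq J).add_mem (key z z' h3 h4 h5 h6) ((Msq J).smul_mem (B J z z') hvuM)
    rwa [sub_add_cancel] at h7
  -- decomposition
  have hdec : ∀ a : n → F, ∃ (α β : F) (z : n → F), a = α • v + β • u + z ∧ B J v z = 0 ∧ B J u z = 0 := by
    intro a
    refine ⟨B J u a, B J v a, a + (-(B J u a)) • v + (-(B J v a)) • u, by module, ?_, ?_⟩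
    · rw [B_add_right, B_add_right, B_smul_right, B_smul_right, hvv, hvu]
      ring
    · rw [B_add_right, B_add_right, B_smul_right, B_smul_right, huv, huu]
      ring
  obtain ⟨α, β, z, rfl, hvz, huz⟩ := hdec a
  obtain ⟨α', β', z', rfl, hvz', huz'⟩ := hdec b
  have h3 : T v z' * J ∈ Msq J := hper hv0 hvv hvz'
  have h4 : T v z * J ∈ Msq J := hper hv0 hvv hvz
  have h5 : T u z' * J ∈ Msq J := hper hu0 huu huz'
  have h6 : T u z * J ∈ Msq J := hper hu0 huu huz
  have h7 := key' z z' hvz huz hvz' huz'
  have h8 : T (α • v + β • u + z) (α' • v + β' • u + z') * J =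
      (α * β' - β * α') • (T v u * J) + α • (T v z' * J) + (-α') • (T v z * J) + β • (T u z' * J) +
        (-β') • (T u z * J) + T z z' * J := by
    simp only [T_add_left, T_add_right, T_smul_left, T_smul_right, T_self, T_swap z v, T_swap z u, T_swap u v,
      Matrix.add_mul, Matrix.smul_mul, Matrix.neg_mul, smul_zero, Matrix.zero_mul]
    module
  rw [h8]
  exact (Msq J).add_mem ((Msq J).add_mem ((Msq J).add_mem ((Msq J).add_mem ((Msq J).add_mem
    ((Msq J).smul_mem _ hvuM) ((Msq J).smul_mem _ h3)) ((Msq J).smul_mem _ h4)) ((Msq J).smul_mem _ h5))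
    ((Msq J).smul_mem _ h6)) h7

end

/-- the alternating case -/
lemma S_mem {F : Type*} [Field F] {n : Type*} [Fintype n] [DecidableEq n] (J : Matrix n n F) (hs : Jᵀ = -J)
    (h2 : (2 : F) ≠ 0) (a b : n → F) : (vecMulVec a b + vecMulVec b a) * J ∈ Msq J := by
  have h1 : ∀ v : n → F, vecMulVec v v * J ∈ Msq J := by
    intro v
    apply Submodule.subset_span
    refine ⟨?_, ?_⟩
    · rw [transpose_mul, transpose_vecMulVec, hs, Matrix.neg_mul, Matrix.neg_mul, Matrix.mul_assoc]
      exact neg_add_cancel _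
    · rw [← Matrix.mul_assoc, mulJ, B_alt J hs h2, zero_smul, Matrix.zero_mul]
  have h3 : (vecMulVec a b + vecMulVec b a) * J =
      vecMulVec (a + b) (a + b) * J - vecMulVec a a * J - vecMulVec b b * J := by
    rw [vecMulVec_add, add_vecMulVec, add_vecMulVec]
    simp only [Matrix.add_mul]
    abel
  rw [h3]
  exact (Msq J).sub_mem ((Msq J).sub_mem (h1 _) (h1 _)) (h1 _)

/-- base change -/
lemma Msq_map {F κ : Type*} [Field F] [Field κ] (j : F →+* κ) {n : Type*} [Fintype n] [DecidableEq n] {J : Matrix n n F}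
    {y : Matrix n n F} (hy : y ∈ Msq J) :
    y.map j ∈ Submodule.span κ {z | ∃ y : Matrix n n F, yᵀ * J + J * y = 0 ∧ y * y = 0 ∧ z = y.map j} := by
  induction hy using Submodule.span_induction with
  | mem x hx => exact Submodule.subset_span ⟨x, hx.1, hx.2, rfl⟩
  | zero =>
    rw [Matrix.map_zero _ (map_zero j)]
    exact Submodule.zero_mem _
  | add x z _ _ hx hz =>
    rw [Matrix.map_add _ (fun _ _ => map_add _ _ _)]
    exact Submodule.add_mem _ hx hz
  | smul c x _ hx =>
    have : (c • x).map j = j c • x.map j := by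
      ext a b
      simp [Matrix.map_apply]
    rw [this]
    exact Submodule.smul_mem _ _ hx

/-- an element of the Lie algebra is a combination of the standard ones -/
lemma comb {κ : Type*} [Field κ] {n : Type*} [Fintype n] [DecidableEq n] (J : Matrix n n κ) (hJ : IsUnit J.det)
    (h2 : (2 : κ) ≠ 0) (ε : κ) (hε : ε * ε = 1) (hs : Jᵀ = ε • J) (x : Matrix n n κ) (hx : xᵀ * J + J * x = 0)
    (W : Submodule κ (Matrix n n κ)) (hW : ∀ a b, (single a b 1 - ε • single b a 1) * J ∈ W) : x ∈ W := by
  set S := x * J⁻¹ with hS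
  have hxS : x = S * J := by
    rw [hS, Matrix.mul_assoc, Matrix.nonsing_inv_mul _ hJ, Matrix.mul_one]
  have hSt : Sᵀ = -(ε • S) := by
    have h3 : Jᵀ * Sᵀ * J + J * S * J = 0 := by
      have h4 := hx
      rw [hxS, transpose_mul] at h4
      rw [← h4, Matrix.mul_assoc J S J]
    have h4 : J * (ε • Sᵀ + S) * J = 0 := by
      rw [← h3, hs, Matrix.mul_add, Matrix.add_mul, Matrix.mul_smul, Matrix.smul_mul, Matrix.smul_mul, Matrix.smul_mul]
    have h5 : ε • Sᵀ + S = 0 := by
      have h6 : J⁻¹ * (J * (ε • Sᵀ + S) * J) * J⁻¹ = ε • Sᵀ + S := by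
        rw [Matrix.mul_assoc J, ← Matrix.mul_assoc J⁻¹ J, Matrix.nonsing_inv_mul _ hJ, Matrix.one_mul, Matrix.mul_assoc,
          Matrix.mul_nonsing_inv _ hJ, Matrix.mul_one]
      rw [← h6, h4, Matrix.mul_zero, Matrix.zero_mul]
    have h6 : ε • (ε • Sᵀ + S) = 0 := by rw [h5, smul_zero]
    rw [smul_add, smul_smul, hε, one_smul] at h6
    exact eq_neg_of_add_eq_zero_left h6
  have h3 : (2 : κ) • x = ∑ a, ∑ b, S a b • ((single a b 1 - ε • single b a 1) * J) := by
    have h4 : S = ∑ a, ∑ b, S a b • single a b (1 : κ) := by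
      conv_lhs => rw [matrix_eq_sum_single S]
      refine Finset.sum_congr rfl fun a _ => Finset.sum_congr rfl fun b _ => ?_
      rw [smul_single, smul_eq_mul, mul_one]
    have h5 : (2 : κ) • S = ∑ a, ∑ b, S a b • (single a b (1 : κ) - ε • single b a 1) := by
      have h6 : ∑ a, ∑ b, S a b • (single a b (1 : κ) - ε • single b a 1) =
          (∑ a, ∑ b, S a b • single a b (1 : κ)) - ε • ∑ a, ∑ b, S b a • single a b (1 : κ) := by
        rw [Finset.smul_sum]
        simp only [Finset.smul_sum]
        rw [Finset.sum_comm (f := fun a b => ε • S b a • single a b (1 : κ)), ← Finset.sum_sub_distrib]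
        refine Finset.sum_congr rfl fun a _ => ?_
        rw [← Finset.sum_sub_distrib]
        refine Finset.sum_congr rfl fun b _ => ?_
        rw [smul_sub, smul_comm]
      rw [h6]
      have h7 : ∑ a, ∑ b, S b a • single a b (1 : κ) = Sᵀ := by
        conv_rhs => rw [matrix_eq_sum_single Sᵀ]
        refine Finset.sum_congr rfl fun a _ => Finset.sum_congr rfl fun b _ => ?_
        rw [smul_single, smul_eq_mul, mul_one, transpose_apply]
      rw [h7, ← h4, hSt, smul_neg, smul_smul, hε, one_smul, two_smul, sub_neg_eq_add]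
    rw [hxS, ← Matrix.smul_mul, h5, Finset.sum_mul]
    refine Finset.sum_congr rfl fun a _ => ?_
    rw [Finset.sum_mul]
    refine Finset.sum_congr rfl fun b _ => ?_
    rw [Matrix.smul_mul]
  have h4 : (2 : κ) • x ∈ W := by
    rw [h3]
    exact Submodule.sum_mem _ fun a _ => Submodule.sum_mem _ fun b _ => Submodule.smul_mem _ _ (hW a b)
  have h5 := W.smul_mem (2 : κ)⁻¹ h4
  rwa [smul_smul, inv_mul_cancel₀ h2, one_smul] at h5

end Pool.Agent.Helper85.KN

namespace Pool.Agent.Helper79.KN

open Pool.Agent.Helper85.KN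

/-- N1 -/
theorem span_sq {r : ℕ} [Fact r.Prime] (hr : r ≠ 2) {κ : Type*} [Field κ] (j : ZMod r →+* κ) {n : Type*} [Fintype n]
    [DecidableEq n] (hn : 4 < Fintype.card n) {J : Matrix n n (ZMod r)} (hJ : IsUnit J.det) (hs : Jᵀ = J ∨ Jᵀ = -J)
    (x : Matrix n n κ) (hx : xᵀ * J.map j + J.map j * x = 0) :
    x ∈ Submodule.span κ {z | ∃ y : Matrix n n (ZMod r), yᵀ * J + J * y = 0 ∧ y * y = 0 ∧ z = y.map j} := by
  have hp : r.Prime := Fact.out
  have hodd : r % 2 = 1 := hp.eq_two_or_odd.resolve_left hr
  have h2 : (2 : ZMod r) ≠ 0 := by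
    intro h
    have h3 : ((2 : ℕ) : ZMod r) = 0 := by exact_mod_cast h
    rw [ZMod.natCast_eq_zero_iff] at h3
    have := Nat.le_of_dvd (by norm_num) h3
    have := hp.two_le
    omega
  have h2κ : (2 : κ) ≠ 0 := by
    have h3 : j 2 = 2 := map_ofNat j 2
    rw [← h3]
    exact (map_ne_zero j).2 h2
  have hJκ : IsUnit (J.map j).det := by
    have h3 : (J.map j).det = j J.det := by
      rw [← RingHom.mapMatrix_apply, ← RingHom.map_det]
    rw [h3]
    exact hJ.map j
  have hsingle : ∀ (a b : n) (ε : ZMod r), (single a b (1 : κ) - j ε • single b a 1) * J.map j =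
      ((single a b (1 : ZMod r) - ε • single b a 1) * J).map j := by
    intro a b ε
    rw [← RingHom.mapMatrix_apply, ← RingHom.mapMatrix_apply, map_mul, map_sub]
    congr 2
    · ext c d
      simp [single_apply, apply_ite j]
    · ext c d
      simp [single_apply, apply_ite j]
  rcases hs with hs | hs
  · apply comb (J.map j) hJκ h2κ (j 1) (by rw [← map_mul, mul_one, map_one])
      (by rw [map_one, one_smul, ← transpose_map, hs]) x hx
    intro a b
    rw [hsingle]
    apply Msq_map
    have h3 := T_mem J hs hJ h2 (by rw [ZMod.card]; exact hodd) hn (Pi.single a 1) (Pi.single b 1)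
    unfold T at h3
    rwa [← single_eq_single_vecMulVec_single, ← single_eq_single_vecMulVec_single, ← one_smul (ZMod r) (single b a _)] at h3
  · apply comb (J.map j) hJκ h2κ (j (-1)) (by rw [← map_mul, neg_one_mul, neg_neg, map_one])
      (by rw [map_neg, map_one, neg_one_smul, ← transpose_map, hs]; ext c d; simp) x hx
    intro a b
    rw [hsingle]
    apply Msq_map
    have h3 := S_mem J hs h2 (Pi.single a 1) (Pi.single b 1)
    rw [← single_eq_single_vecMulVec_single, ← single_eq_single_vecMulVec_single] at h3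
    rwa [neg_one_smul, sub_neg_eq_add]

end Pool.Agent.Helper79.KN
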